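import Mathlib
import Pool.Agent.W966.Vf.Stms

/-!
# Project VF: heights of the ideal of the origin (`VF-HT`)
-/

set_option autoImplicit false

namespace Pool.Agent.W637.VF

open MvPolynomial Pool.Agent.W966.Vf

section

variable {ρ S : Type} [CommRing S]

open Classical in
/-- Put the variables of `A` to zero. -/
noncomputable def kl (A : Finset ρ) : MvPolynomial ρ S →ₐ[S] MvPolynomial ρ S :=
  aeval fun v => if v ∈ A then 0 else X v

open Classical in
lemma kl_insert (A : Finset ρ) (v : ρ) (p : MvPolynomial ρ S) :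
    kl (insert v A) p = kl {v} (kl A p) := by
  have h : (kl (insert v A) : MvPolynomial ρ S →ₐ[S] MvPolynomial ρ S) =
      (kl {v}).comp (kl A) := by
    apply MvPolynomial.algHom_ext
    intro u
    simp only [kl, aeval_X, AlgHom.comp_apply, Finset.mem_insert]
    by_cases hu : u ∈ A
    · simp [hu]
    · by_cases huv : u = v
      · subst huv
        simp [hu]
      · simp [hu, huv]
  rw [h]
  rfl

/-- The prime generated by the variables of `A`. -/
noncomputable def Pr (A : Finset ρ) : Ideal (MvPolynomial ρ S) :=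
  RingHom.ker (kl A : MvPolynomial ρ S →ₐ[S] MvPolynomial ρ S)

instance [IsDomain S] (A : Finset ρ) : (Pr (S := S) A).IsPrime :=
  RingHom.ker_isPrime _

lemma Pr_lt [Nontrivial S] [DecidableEq ρ] (A : Finset ρ) (v : ρ) (hv : v ∉ A) :
    Pr (S := S) A < Pr (insert v A) := by
  have hins : ∀ p : MvPolynomial ρ S, kl (insert v A) p = kl {v} (kl A p) := by
    intro p
    convert kl_insert A v p
  refine lt_of_le_of_ne ?_ ?_
  · intro p hp
    rw [Pr, RingHom.mem_ker] at hp ⊢
    rw [hins, hp, map_zero]
  · intro h
    have h1 : (X v : MvPolynomial ρ S) ∈ Pr (S := S) (insert v A) := by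
      rw [Pr, RingHom.mem_ker]
      simp [kl]
    rw [← h, Pr, RingHom.mem_ker] at h1
    simp only [kl, aeval_X, hv, if_false] at h1
    exact MvPolynomial.X_ne_zero v h1

lemma card_le_height [IsDomain S] (A : Finset ρ) :
    (A.card : ℕ∞) ≤ (Pr (S := S) A).height := by
  classical
  induction A using Finset.induction_on with
  | empty => simp
  | insert v A hv ih =>
    have h := Ideal.height_add_one_le_of_lt_of_isPrime (Pr_lt (S := S) A v hv)
    rw [Finset.card_insert_of_notMem hv]
    refine le_trans ?_ h
    push_cast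
    gcongr

lemma Pr_univ [Fintype ρ] : Pr (S := S) (Finset.univ : Finset ρ) = orig ρ S := by
  ext p
  rw [Pr, RingHom.mem_ker, orig, RingHom.mem_ker]
  have h : kl (Finset.univ : Finset ρ) p = C (MvPolynomial.eval (fun _ : ρ => (0 : S)) p) := by
    have h2 : (kl (Finset.univ : Finset ρ) : MvPolynomial ρ S →ₐ[S] MvPolynomial ρ S) =
        (Algebra.ofId S (MvPolynomial ρ S)).comp (aeval fun _ : ρ => (0 : S)) := by
      apply MvPolynomial.algHom_ext
      intro u
      simp [kl]
    rw [h2]
    simp [Algebra.ofId_apply, MvPolynomial.algebraMap_eq, MvPolynomial.aeval_eq_eval]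
  rw [h]
  constructor
  · intro h0
    exact MvPolynomial.C_injective ρ S (by simpa using h0)
  · intro h0
    rw [h0, map_zero]

end

theorem ht1 : S_HT1 := by
  intro ρ S _ _ _
  have h := card_le_height (S := S) (Finset.univ : Finset ρ)
  rw [Pr_univ] at h
  simpa using h

instance orig_isPrime (ρ S : Type) [CommRing S] [IsDomain S] : (orig ρ S).IsPrime :=
  RingHom.ker_isPrime _

instance orig'_isPrime (ρ Ω : Type) [Field Ω] : (orig' ρ Ω).IsPrime :=
  RingHom.ker_isPrime _

theorem ht2 : S_HT2 := by
  intro ρ Ω _ _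
  have hlt : orig ρ (PowerSeries Ω) < orig' ρ Ω := by
    refine lt_of_le_of_ne ?_ ?_
    · intro p hp
      rw [orig, RingHom.mem_ker] at hp
      rw [orig', RingHom.mem_ker, RingHom.comp_apply, hp, map_zero]
    · intro h
      have h1 : (C (PowerSeries.X : PowerSeries Ω) : MvPolynomial ρ (PowerSeries Ω)) ∈
          orig' ρ Ω := by
        rw [orig', RingHom.mem_ker, RingHom.comp_apply, MvPolynomial.eval_C]
        simp
      rw [← h, orig, RingHom.mem_ker, MvPolynomial.eval_C] at h1
      exact PowerSeries.X_ne_zero h1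
  have h := Ideal.height_add_one_le_of_lt_of_isPrime hlt
  refine le_trans ?_ h
  push_cast
  gcongr
  exact ht1 ρ (PowerSeries Ω)

end Pool.Agent.W637.VF
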